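import Pool.Agent.H37.Ledoux.Main
import Pool.Agent.H37.Ledoux.Transport
import Pool.Agent.H43.LD.Apx

set_option autoImplicit false

open MeasureTheory ProbabilityTheory Filter Topology
open scoped ENNReal

namespace Pool.Agent.Results.MP_f27aad_pr.WeakLimit

universe u v

/-- The squared Euclidean distance of two points of the plane. -/
def sqDist (x y : ℝ × ℝ) : ℝ := (x.1 - y.1) ^ 2 + (x.2 - y.2) ^ 2

/-- The set of couplings of two measures on the plane. -/
def couplings (μ ν : Measure (ℝ × ℝ)) : Set (Measure ((ℝ × ℝ) × (ℝ × ℝ))) :=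
  {γ | γ.map Prod.fst = μ ∧ γ.map Prod.snd = ν}

/-- The optimal transport cost with quadratic cost: the infimum over all couplings of the integral
of the squared Euclidean distance. -/
noncomputable def T2 (μ ν : Measure (ℝ × ℝ)) : ℝ :=
  (⨅ γ ∈ couplings μ ν, ∫⁻ z, ENNReal.ofReal (sqDist z.1 z.2) ∂γ).toReal

/-- The uniform probability measure on the unit square. -/
noncomputable def unif : Measure (ℝ × ℝ) := volume.restrict (Set.Icc 0 1 ×ˢ Set.Icc 0 1)

/-- The empirical measure of the first `n` points of a sequence. -/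
noncomputable def empirical (n : ℕ) (x : ℕ → ℝ × ℝ) : Measure (ℝ × ℝ) :=
  (n : ℝ≥0∞)⁻¹ • ∑ i ∈ Finset.range n, Measure.dirac (x i)

/-- The empirical transport cost `T_n`. -/
noncomputable def Tn {Ω : Type*} (X : ℕ → Ω → ℝ × ℝ) (n : ℕ) (ω : Ω) : ℝ :=
  T2 (empirical n fun i => X i ω) unif

/-- The partial sums of the limiting Gaussian series: the sum over the nonzero `k` in
`{0, ..., N - 1} ^ 2` of `(g_k ^ 2 - 1) / (π ^ 2 * |k| ^ 2)`. -/
noncomputable def chaosSum {Ω : Type*} (g : ℕ × ℕ → Ω → ℝ) (N : ℕ) (ω : Ω) : ℝ :=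
  ∑ k ∈ (Finset.range N ×ˢ Finset.range N).erase (0, 0),
    (g k ω ^ 2 - 1) / (Real.pi ^ 2 * ((k.1 : ℝ) ^ 2 + (k.2 : ℝ) ^ 2))

/-- The cosine basis of the unit square: the product over the two coordinates of `1` if `k_j = 0`
and of `√2 * cos (π * k_j * x_j)` otherwise. -/
noncomputable def cosBasis (k : ℕ × ℕ) (x : ℝ × ℝ) : ℝ :=
  (if k.1 = 0 then 1 else √2 * Real.cos (Real.pi * k.1 * x.1)) *
    (if k.2 = 0 then 1 else √2 * Real.cos (Real.pi * k.2 * x.2))

/-- The normalised Fourier coefficient of the first `n` points of the sample: the sum of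
`cosBasis k (X_i)` over `i < n`, divided by `√n`. -/
noncomputable def coeff {Ω : Type*} (X : ℕ → Ω → ℝ × ℝ) (n : ℕ) (k : ℕ × ℕ) (ω : Ω) : ℝ :=
  (∑ i ∈ Finset.range n, cosBasis k (X i ω)) / √n

/-- The quadratic statistic of the sample: the sum over `k ∈ K` of
`(coeff X n k ^ 2 - 1) / (π ^ 2 * |k| ^ 2)`. -/
noncomputable def sampleSum {Ω : Type*} (X : ℕ → Ω → ℝ × ℝ) (n : ℕ) (K : Finset (ℕ × ℕ)) (ω : Ω) :
    ℝ :=
  ∑ k ∈ K, (coeff X n k ω ^ 2 - 1) / (Real.pi ^ 2 * ((k.1 : ℝ) ^ 2 + (k.2 : ℝ) ^ 2))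

/-- The sum of `2 / (π ^ 2 * |k| ^ 2) ^ 2` over all the nonzero `k` outside `K` (a convergent
series; the term `k = 0` is `2 / 0 = 0`). -/
noncomputable def varOutside (K : Finset (ℕ × ℕ)) : ℝ :=
  ∑' k : ℕ × ℕ, if k ∈ K then 0 else 2 / (Real.pi ^ 2 * ((k.1 : ℝ) ^ 2 + (k.2 : ℝ) ^ 2)) ^ 2

section Sample

variable {Ω : Type*} [MeasurableSpace Ω] (Pr : Measure Ω) [IsProbabilityMeasure Pr]
  (X : ℕ → Ω → ℝ × ℝ)

/-- The sample as a random vector. -/
def vec (n : ℕ) (ω : Ω) : Fin (n + 1) → H37.E := fun i => X i ω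

lemma measurable_vec (hm : ∀ i, Measurable (X i)) (n : ℕ) : Measurable (vec X n) :=
  measurable_pi_iff.mpr fun i => hm i

lemma map_vec (hm : ∀ i, Measurable (X i)) (hind : iIndepFun X Pr)
    (hlaw : ∀ i, Pr.map (X i) = unif) (n : ℕ) :
    Pr.map (vec X n) = H37.Pn H37.P (n + 1) := by
  have h1 : iIndepFun (fun i : Fin (n + 1) => X i) Pr := hind.precomp Fin.val_injective
  have h2 := (iIndepFun_iff_map_fun_eq_pi_map (fun i : Fin (n + 1) => (hm i).aemeasurable)).mp h1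
  have h3 : Pr.map (vec X n) = Measure.pi fun i : Fin (n + 1) => Pr.map (X i) := h2
  rw [h3]
  congr 1
  funext i
  exact hlaw i

lemma empirical_eq (n : ℕ) (ω : Ω) :
    empirical (n + 1) (fun i => X i ω) = H37.emp (vec X n ω) := by
  unfold empirical H37.emp vec
  rw [Finset.sum_range, Fintype.card_fin]

lemma Tn_eq (hm : ∀ i, Measurable (X i)) (hind : iIndepFun X Pr)
    (hlaw : ∀ i, Pr.map (X i) = unif) (n : ℕ) :
    ∀ᵐ ω ∂Pr, Tn X (n + 1) ω = H37.TT (H37.prs (vec X n ω)) := by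
  have h1 : ∀ᵐ x ∂(Pr.map (vec X n)), (∀ i, x i ∈ H37.Q) ∧ Function.Injective x := by
    rw [map_vec Pr X hm hind hlaw n]
    filter_upwards [H37.ae_mem (n + 1), H37.ae_inj (n + 1)] with x h2 h3
    exact ⟨h2, h3⟩
  have h2 := ae_of_ae_map (measurable_vec X hm n).aemeasurable h1
  filter_upwards [h2] with ω hω
  obtain ⟨hQ, hinj⟩ := hω
  rw [H37.prs_of_mem hQ]
  unfold Tn
  rw [empirical_eq]
  have h3 := H37.tcost_eq (vec X n ω) hQ hinj
  have h4 : T2 (H37.emp (vec X n ω)) unif = (H37.tcost (H37.emp (vec X n ω)) H37.P).toReal := rfl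
  rw [h4, h3, ENNReal.toReal_ofReal (H37.TT_nonneg _)]

lemma integral_Tn (hm : ∀ i, Measurable (X i)) (hind : iIndepFun X Pr)
    (hlaw : ∀ i, Pr.map (X i) = unif) (n : ℕ) :
    ∫ ω, Tn X (n + 1) ω ∂Pr = ∫ x, H37.TT (H37.prs x) ∂(H37.Pn H37.P (n + 1)) := by
  rw [integral_congr_ae (Tn_eq Pr X hm hind hlaw n), ← map_vec Pr X hm hind hlaw n]
  exact (integral_map (measurable_vec X hm n).aemeasurable
    H37.BM_TT.1.aestronglyMeasurable).symm

lemma integrable_Tn (hm : ∀ i, Measurable (X i)) (hind : iIndepFun X Pr)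
    (hlaw : ∀ i, Pr.map (X i) = unif) (n : ℕ) : Integrable (Tn X n) Pr := by
  cases n with
  | zero =>
    have : Tn X 0 = fun _ : Ω => T2 ((0 : ℝ≥0∞)⁻¹ • 0) unif := by
      funext ω
      unfold Tn empirical
      simp
    rw [this]
    exact integrable_const _
  | succ n =>
    have h1 : H37.BM fun ω => H37.TT (H37.prs (vec X n ω)) :=
      H37.BM_TT.comp (measurable_vec X hm n)
    exact (h1.integrable Pr).congr
      ((Tn_eq Pr X hm hind hlaw n).mono fun ω h => h.symm)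

lemma scaled_eq (hm : ∀ i, Measurable (X i)) (hind : iIndepFun X Pr)
    (hlaw : ∀ i, Pr.map (X i) = unif) (n : ℕ) :
    ∀ᵐ ω ∂Pr, ((n + 1 : ℕ) : ℝ) * (Tn X (n + 1) ω - ∫ ω', Tn X (n + 1) ω' ∂Pr) =
      H37.VV n (vec X n ω) := by
  filter_upwards [Tn_eq Pr X hm hind hlaw n] with ω hω
  rw [hω, integral_Tn Pr X hm hind hlaw n]
  unfold H37.VV
  push_cast
  rfl

lemma coeff_sq (n : ℕ) (k : ℕ × ℕ) (ω : Ω) :
    coeff X (n + 1) k ω ^ 2 = ((n : ℝ) + 1) * H37.av (vec X n ω) k ^ 2 := by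
  have h1 : ∑ i ∈ Finset.range (n + 1), cosBasis k (X i ω) =
      ∑ i : Fin (n + 1), H37.e k (vec X n ω i) := by
    rw [Finset.sum_range]
    rfl
  have hn : (0 : ℝ) < (n : ℝ) + 1 := by positivity
  unfold coeff H37.av
  rw [h1, div_pow, div_pow, Real.sq_sqrt (by positivity), Fintype.card_fin]
  push_cast
  field_simp

lemma sampleSum_eq (n : ℕ) (K : Finset (ℕ × ℕ)) (ω : Ω) :
    sampleSum X (n + 1) K ω = H37.WK n K (vec X n ω) := by
  unfold sampleSum H37.WK
  refine Finset.sum_congr rfl fun k _ => ?_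
  rw [coeff_sq]
  rfl

lemma integral_error (hm : ∀ i, Measurable (X i)) (hind : iIndepFun X Pr)
    (hlaw : ∀ i, Pr.map (X i) = unif) (n : ℕ) (K : Finset (ℕ × ℕ)) :
    ∫ ω, (((n + 1 : ℕ) : ℝ) * (Tn X (n + 1) ω - ∫ ω', Tn X (n + 1) ω' ∂Pr) -
      sampleSum X (n + 1) K ω) ^ 2 ∂Pr =
    ∫ x, (H37.VV n x - H37.WK n K x) ^ 2 ∂(H37.Pn H37.P (n + 1)) := by
  rw [← map_vec Pr X hm hind hlaw n, integral_map (measurable_vec X hm n).aemeasurable
    ((H37.BM_VV n).sub (H37.BM_WK n K)).sq.1.aestronglyMeasurable]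
  refine integral_congr_ae ?_
  filter_upwards [scaled_eq Pr X hm hind hlaw n] with ω hω
  rw [hω, sampleSum_eq]

end Sample

lemma varOutside_eq (K : Finset (ℕ × ℕ)) : varOutside K = 2 * H37.tail K := by
  rw [H43.LD.tail_eq]
  rfl

lemma chaosSum_eq {Ω : Type*} (g : ℕ × ℕ → Ω → ℝ) (N : ℕ) (ω : Ω) :
    chaosSum g N ω = H37.qK ((H37.box N).erase 0) fun k => g k ω := by
  unfold chaosSum H37.qK H37.lam H37.box
  rw [← Finset.sum_coe_sort]
  rfl

/-- Ledoux's question has a positive answer; the limit law, its variance, and the exact asymptotic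
mean square distance to the quadratic statistics of the sample. -/
theorem result :
    ∃ ξ : Measure ℝ, ∃ _ : IsProbabilityMeasure ξ,
      Integrable (fun x : ℝ => x) ξ ∧ ∫ x, x ∂ξ = 0 ∧
      Integrable (fun x : ℝ => x ^ 2) ξ ∧ ∫ x, x ^ 2 ∂ξ = varOutside ∅ ∧
      (∀ (Ω : Type u) [MeasurableSpace Ω] (Pr : Measure Ω) [IsProbabilityMeasure Pr]
        (X : ℕ → Ω → ℝ × ℝ), (∀ i, Measurable (X i)) → iIndepFun X Pr →
        (∀ i, Pr.map (X i) = unif) →
        (∀ n, Integrable (Tn X n) Pr) ∧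
        TendstoInDistribution (fun (n : ℕ) ω => (n : ℝ) * (Tn X n ω - ∫ ω', Tn X n ω' ∂Pr)) atTop
          (fun x : ℝ => x) (fun _ => Pr) ξ ∧
        ∀ K : Finset (ℕ × ℕ), (0, 0) ∉ K → Tendsto (fun n : ℕ =>
          ∫ ω, ((n : ℝ) * (Tn X n ω - ∫ ω', Tn X n ω' ∂Pr) - sampleSum X n K ω) ^ 2 ∂Pr) atTop
          (𝓝 (varOutside K))) ∧
      (∀ (Ω : Type v) [MeasurableSpace Ω] (Pr : Measure Ω) [IsProbabilityMeasure Pr]
        (g : ℕ × ℕ → Ω → ℝ), (∀ k, Measurable (g k)) → iIndepFun g Pr →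
        (∀ k, Pr.map (g k) = gaussianReal 0 1) →
        TendstoInDistribution (chaosSum g) atTop (fun x : ℝ => x) (fun _ => Pr) ξ) := by
  obtain ⟨q, hq, hq2, hq1, hq0⟩ := H37.main_limit
  have hvar : ∫ x, x ^ 2 ∂(q : Measure ℝ) = varOutside ∅ := by
    rw [H43.LD.chaos_sq q hq, varOutside_eq, H43.LD.sig2_eq ∅, Finset.sum_empty, zero_add]
  refine ⟨(q : Measure ℝ), inferInstance, hq1, hq0, hq2, hvar, ?_, ?_⟩
  · intro Ω _ Pr _ X hm hind hlaw
    refine ⟨integrable_Tn Pr X hm hind hlaw, ?_, fun K hK => ?_⟩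
    swap
    · rw [← tendsto_add_atTop_iff_nat 1, varOutside_eq]
      refine (H43.LD.tendsto_VV_sub_WK_sq K hK).congr fun n => ?_
      exact (integral_error Pr X hm hind hlaw n K).symm
    have hmeas : ∀ n : ℕ, AEMeasurable
        (fun ω => (n : ℝ) * (Tn X n ω - ∫ ω', Tn X n ω' ∂Pr)) Pr := by
      intro n
      exact ((integrable_Tn Pr X hm hind hlaw n).aemeasurable.sub_const _).const_mul _
    refine ⟨hmeas, by fun_prop, ?_⟩
    rw [← tendsto_add_atTop_iff_nat 1]
    have hlim : (⟨(q : Measure ℝ).map (fun x : ℝ => x),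
        Measure.isProbabilityMeasure_map (by fun_prop)⟩ : ProbabilityMeasure ℝ) = q := by
      apply Subtype.ext
      exact Measure.map_id
    rw [hlim]
    refine hq.congr fun n => ?_
    apply Subtype.ext
    show (H37.Pn H37.P (n + 1)).map (H37.VV n) =
      Pr.map (fun ω => ((n + 1 : ℕ) : ℝ) * (Tn X (n + 1) ω - ∫ ω', Tn X (n + 1) ω' ∂Pr))
    rw [Measure.map_congr (scaled_eq Pr X hm hind hlaw n), ← map_vec Pr X hm hind hlaw n,
      Measure.map_map (H37.BM_VV n).1 (measurable_vec X hm n)]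
    rfl
  · intro Ω _ Pr _ g hm hind hlaw
    have hK : ∀ N, Measurable (chaosSum g N) := by
      intro N
      unfold chaosSum
      apply Finset.measurable_fun_sum
      intro k _
      have := hm k
      fun_prop
    refine ⟨fun N => (hK N).aemeasurable, by fun_prop, ?_⟩
    have hlim : (⟨(q : Measure ℝ).map (fun x : ℝ => x),
        Measure.isProbabilityMeasure_map (by fun_prop)⟩ : ProbabilityMeasure ℝ) = q := by
      apply Subtype.ext
      exact Measure.map_id
    rw [hlim, ProbabilityMeasure.tendsto_iff_tendsto_charFun]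
    intro s
    refine (H37.chaos_limit q hq s).congr fun N => ?_
    have h1 : iIndepFun (fun k : ((H37.box N).erase 0 : Finset (ℕ × ℕ)) => g k) Pr :=
      hind.precomp Subtype.val_injective
    have h2 := (iIndepFun_iff_map_fun_eq_pi_map (fun k : ((H37.box N).erase 0 : Finset (ℕ × ℕ)) =>
      (hm k).aemeasurable)).mp h1
    have h3 : H37.gK ((H37.box N).erase 0) = Pr.map (chaosSum g N) := by
      unfold H37.gK
      have h4 : (Measure.pi fun _ : ((H37.box N).erase 0 : Finset (ℕ × ℕ)) => gaussianReal 0 1) =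
          Pr.map fun ω (k : ((H37.box N).erase 0 : Finset (ℕ × ℕ))) => g k ω := by
        rw [h2]
        congr 1
        funext k
        exact (hlaw k).symm
      rw [h4, Measure.map_map (H37.continuous_qK _).measurable
        (measurable_pi_iff.mpr fun k => hm k)]
      congr 1
      funext ω
      exact (chaosSum_eq g N ω).symm
    rw [h3]
    rfl

end Pool.Agent.Results.MP_f27aad_pr.WeakLimit
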